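import Pool.Agent.Helper87.LogPoly.Rho

/-! Asymptotic facts for pieces P3 / P4 of MP_b30792_pr. -/

set_option autoImplicit false

namespace Pool.Agent.Helper98.LogPoly

open Filter Topology Set Asymptotics

/-- `h(x) ~ ρ^a / w` -/
theorem h_ratio {a : ℝ} {h : Pt → ℝ} (hh : HAsym a h) {κ : ℝ} (hκ : 8 ≤ κ) :
    Tendsto (fun x : Pt => h x * (κ + nsq x) / rho κ x ^ a) cofinite (𝓝 1) := by
  have e1 : (fun n : ℝ => n + κ) ~[atTop] (fun n => n) :=
    IsEquivalent.refl.add_isLittleO (isLittleO_const_id_atTop κ)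
  have e2 : (fun n : ℝ => Real.log (n + κ)) ~[atTop] (fun n => Real.log n) := e1.log tendsto_id
  have hne : ∀ᶠ n : ℝ in atTop, n ≠ 0 := eventually_ne_atTop 0
  have hlne : ∀ᶠ n : ℝ in atTop, Real.log n ≠ 0 :=
    Real.tendsto_log_atTop.eventually_ne_atTop 0
  have e3 : Tendsto (fun n : ℝ => (n + κ) / n) atTop (𝓝 1) :=
    (isEquivalent_iff_tendsto_one hne).1 e1
  have e4 : Tendsto (fun n : ℝ => Real.log (n + κ) / Real.log n) atTop (𝓝 1) :=
    (isEquivalent_iff_tendsto_one hlne).1 e2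
  have e5 : Tendsto (fun n : ℝ => (n + κ) / n * (Real.log (n + κ) / Real.log n) ^ (-a)) atTop
      (𝓝 (1 * 1 ^ (-a))) :=
    e3.mul (e4.rpow_const (Or.inl one_ne_zero))
  rw [Real.one_rpow, mul_one] at e5
  have e6 := e5.comp tendsto_nsq
  have e7 := hh.mul e6
  rw [mul_one] at e7
  refine e7.congr' ?_
  have h1 : ∀ᶠ x : Pt in cofinite, 2 ≤ nsq x := tendsto_nsq.eventually_ge_atTop 2
  filter_upwards [h1] with x hx
  have hlog : 0 < Real.log (nsq x) := Real.log_pos (by linarith)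
  have hlog2 : 0 < Real.log (nsq x + κ) := Real.log_pos (by linarith)
  have hn : 0 < nsq x := by linarith
  simp only [Function.comp, rho]
  rw [Real.div_rpow hlog2.le hlog.le, Real.rpow_neg hlog2.le, Real.rpow_neg hlog.le,
    Real.mul_rpow (by norm_num) hlog.le, add_comm κ (nsq x), Real.mul_rpow (by norm_num) hlog2.le]
  have p1 : 0 < Real.log (nsq x) ^ a := Real.rpow_pos_of_pos hlog _
  have p2 : 0 < Real.log (nsq x + κ) ^ a := Real.rpow_pos_of_pos hlog2 _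
  have p3 : (0:ℝ) < (1 / 2) ^ a := Real.rpow_pos_of_pos (by norm_num) _
  field_simp

theorem h_lower {a : ℝ} {h : Pt → ℝ} (hh : HAsym a h) {κ : ℝ} (hκ : 8 ≤ κ) {ε : ℝ} (hε : 0 < ε) :
    ∀ᶠ x : Pt in cofinite, (1 - ε) * (rho κ x ^ a / (κ + nsq x)) ≤ h x := by
  have h1 := (h_ratio hh hκ).eventually_const_lt (show 1 - ε < 1 by linarith)
  filter_upwards [h1] with x hx
  have hn := nsq_nonneg x
  have hr := one_le_rho hκ x
  have p1 : 0 < rho κ x ^ a := Real.rpow_pos_of_pos (by linarith) _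
  have p2 : 0 < κ + nsq x := by linarith
  rw [lt_div_iff₀ p1] at hx
  rw [mul_div_assoc', div_le_iff₀ p2]
  exact hx.le

theorem h_upper {a : ℝ} {h : Pt → ℝ} (hh : HAsym a h) {κ : ℝ} (hκ : 8 ≤ κ) {ε : ℝ} (hε : 0 < ε) :
    ∀ᶠ x : Pt in cofinite, h x ≤ (1 + ε) * (rho κ x ^ a / (κ + nsq x)) := by
  have h1 := (h_ratio hh hκ).eventually_lt_const (show 1 < 1 + ε by linarith)
  filter_upwards [h1] with x hx
  have hn := nsq_nonneg x
  have hr := one_le_rho hκ x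
  have p1 : 0 < rho κ x ^ a := Real.rpow_pos_of_pos (by linarith) _
  have p2 : 0 < κ + nsq x := by linarith
  rw [div_lt_iff₀ p1] at hx
  rw [mul_div_assoc', le_div_iff₀ p2]
  exact hx.le

/-- the length scale as a function of `Λ = log ℓ` -/
noncomputable def LL (p Λ : ℝ) : ℝ := 1 / 2 * Λ - (p + 5) / 2 * Real.log Λ

theorem tendsto_LL_ratio (p : ℝ) : Tendsto (fun Λ => LL p Λ / (1 / 2 * Λ)) atTop (𝓝 1) := by
  have h1 : Tendsto (fun Λ : ℝ => Real.log Λ / Λ) atTop (𝓝 0) := by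
    have := Real.isLittleO_log_id_atTop.tendsto_div_nhds_zero
    simpa using this
  have h2 : Tendsto (fun Λ : ℝ => 1 - (p + 5) * (Real.log Λ / Λ)) atTop (𝓝 (1 - (p + 5) * 0)) :=
    (h1.const_mul _).const_sub 1
  rw [mul_zero, sub_zero] at h2
  refine h2.congr' ?_
  filter_upwards [eventually_gt_atTop 0] with Λ hΛ
  unfold LL
  field_simp
  try ring

theorem tendsto_LL (p : ℝ) : Tendsto (LL p) atTop atTop := by
  have h1 : Tendsto (fun Λ : ℝ => 1 / 2 * Λ) atTop atTop :=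
    tendsto_id.const_mul_atTop (by norm_num)
  have h2 := (tendsto_LL_ratio p).pos_mul_atTop one_pos h1
  refine h2.congr' ?_
  filter_upwards [eventually_gt_atTop 0] with Λ hΛ
  field_simp

/-- constants for the function `G_p` just beyond its first zero -/
theorem G_consts {p : ℝ} (hp : 1 < p) {t2 : ℝ} (ht2 : tst p < t2) :
    ∃ t' t'' ε3 c1 : ℝ, 0 < t' ∧ t' < t'' ∧ t' < t2 ∧ 0 < ε3 ∧ 0 < c1 ∧ GG p t' = -ε3 ∧
      (∀ t, 0 ≤ t → t ≤ t'' → GG1 p t ≤ -c1) ∧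
      (∀ s t, 0 ≤ s → s ≤ t → t ≤ t'' → GG p t ≤ GG p s) := by
  have hT := (isLeast_tst hp).1
  have hTpos : 0 < tst p := hT.1
  have hT0 : GG p (tst p) = 0 := hT.2
  have hneg := GG1_neg hp hTpos.le le_rfl
  -- negativity beyond T
  have hnb : ∀ᶠ t in 𝓝 (tst p), GG1 p t < 0 :=
    (continuous_GG1 hp).continuousAt.eventually_lt_const hneg
  obtain ⟨δ, hδ, hball⟩ := Metric.eventually_nhds_iff.1 hnb
  obtain ⟨t'', h1, h2, h3⟩ : ∃ t'', tst p < t'' ∧ t'' < tst p + δ ∧ t'' < t2 :=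
    ⟨min (tst p + δ / 2) ((tst p + t2) / 2), by
      apply lt_min <;> linarith, by
      apply (min_le_left _ _).trans_lt; linarith, by
      apply (min_le_right _ _).trans_lt; linarith⟩
  have hnegall : ∀ t, 0 ≤ t → t ≤ t'' → GG1 p t < 0 := by
    intro t h0 ht
    rcases le_total t (tst p) with h | h
    · exact GG1_neg hp h0 h
    · apply hball
      rw [Real.dist_eq, abs_of_nonneg (by linarith)]
      linarith
  obtain ⟨t0, ht0, hmax⟩ := (isCompact_Icc (a := (0:ℝ)) (b := t'')).exists_isMaxOn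
    ⟨0, by constructor <;> linarith⟩ (continuous_GG1 hp).continuousOn
  have hc1 : 0 < -GG1 p t0 := by linarith [hnegall t0 ht0.1 ht0.2]
  have hstrict : StrictAntiOn (GG p) (Icc 0 t'') := by
    apply strictAntiOn_of_deriv_neg (convex_Icc 0 t'') (continuous_GG hp).continuousOn
    intro t ht
    rw [interior_Icc] at ht
    rw [(hasDerivAt_GG hp t).deriv]
    exact hnegall t ht.1.le ht.2.le
  obtain ⟨t', h4, h5⟩ : ∃ t', tst p < t' ∧ t' < t'' := exists_between h1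
  have hneg' : GG p t' < 0 := by
    have := hstrict (a := tst p) (b := t') ⟨hTpos.le, h1.le⟩ ⟨by linarith, h5.le⟩ h4
    linarith
  refine ⟨t', t'', -GG p t', -GG1 p t0, by linarith, h5, by linarith, by linarith, hc1, by ring,
    ?_, ?_⟩
  · intro t ha hb
    have := hmax ⟨ha, hb⟩
    simp only [Set.mem_setOf_eq] at this
    linarith
  · intro s t hs hst ht
    exact hstrict.antitoneOn ⟨hs, hst.trans ht⟩ ⟨hs.trans hst, ht⟩ hst

/-- eventual conditions on `L` -/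
theorem L_conditions {p : ℝ} (hp : 1 < p) {t' t'' : ℝ} (h1 : 0 < t') (h2 : t' < t'')
    (A c1 ε3 r1 K : ℝ) (hc1 : 0 < c1) (hε3 : 0 < ε3) :
    ∀ᶠ L : ℝ in atTop, 1 ≤ L ∧ r1 < L ∧ t' * (1 + 1 / (2 * L)) ^ p ≤ t'' ∧
      A ≤ p * c1 * L ^ (p - 1) ∧ K * (A * t' / L ^ (p - 1)) ≤ ε3 ∧
      A * t' / L ^ (p - 1) ≤ 1 / 4 ∧ 3 / 4 ≤ GG p (t' / L ^ p * r1 ^ p) := by
  have hpw : Tendsto (fun L : ℝ => L ^ (p - 1)) atTop atTop := tendsto_rpow_atTop (by linarith)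
  have hpw2 : Tendsto (fun L : ℝ => L ^ p) atTop atTop := tendsto_rpow_atTop (by linarith)
  have a1 : Tendsto (fun L : ℝ => t' * (1 + 1 / (2 * L)) ^ p) atTop (𝓝 (t' * (1 + 0) ^ p)) := by
    have : Tendsto (fun L : ℝ => 1 / (2 * L)) atTop (𝓝 0) := by
      have := (tendsto_id (α := ℝ) (x := atTop)).const_mul_atTop (show (0:ℝ) < 2 by norm_num)
      exact this.const_div_atTop 1
    exact ((this.const_add 1).rpow_const (Or.inl (by norm_num))).const_mul t'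
  rw [add_zero, Real.one_rpow, mul_one] at a1
  have a2 : Tendsto (fun L : ℝ => p * c1 * L ^ (p - 1)) atTop atTop :=
    hpw.const_mul_atTop (by positivity)
  have a3 : Tendsto (fun L : ℝ => A * t' / L ^ (p - 1)) atTop (𝓝 0) := hpw.const_div_atTop _
  have a4 : Tendsto (fun L : ℝ => K * (A * t' / L ^ (p - 1))) atTop (𝓝 (K * 0)) := a3.const_mul K
  rw [mul_zero] at a4
  have a5 : Tendsto (fun L : ℝ => GG p (t' / L ^ p * r1 ^ p)) atTop (𝓝 (GG p (0 * r1 ^ p))) := by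
    have : Tendsto (fun L : ℝ => t' / L ^ p * r1 ^ p) atTop (𝓝 (0 * r1 ^ p)) :=
      (hpw2.const_div_atTop _).mul_const _
    exact (continuous_GG hp).continuousAt.tendsto.comp this
  rw [zero_mul, GG_zero] at a5
  filter_upwards [eventually_ge_atTop 1, eventually_gt_atTop r1, a1.eventually_lt_const h2,
    a2.eventually_ge_atTop A, a4.eventually_lt_const hε3,
    a3.eventually_lt_const (show (0:ℝ) < 1 / 4 by norm_num),
    a5.eventually_const_lt (show (3:ℝ) / 4 < 1 by norm_num)] with L b1 b2 b3 b4 b5 b6 b7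
  exact ⟨b1, b2, b3.le, b4, b5.le, b6.le, b7.le⟩

/-- eventual conditions on `Λ` -/
theorem Lam_conditions {p : ℝ} {ε t' : ℝ} (hε : 0 < ε) (ht' : 0 < t') (K1 K2 : ℝ)
    {Q : ℝ → Prop} (hQ : ∀ᶠ L : ℝ in atTop, Q L) :
    ∀ᶠ Λ : ℝ in atTop, Q (LL p Λ) ∧ 1 ≤ Λ ∧ K1 ≤ Λ ∧ 1 - ε ≤ (LL p Λ / (1 / 2 * Λ)) ^ p ∧
      K2 * (Λ ^ (p + 3) * Real.exp (-Λ)) ≤ t' ∧ Λ ^ 3 * Real.exp (-Λ) ≤ 1 := by
  have a1 : Tendsto (fun Λ => (LL p Λ / (1 / 2 * Λ)) ^ p) atTop (𝓝 (1 ^ p)) :=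
    (tendsto_LL_ratio p).rpow_const (Or.inl one_ne_zero)
  rw [Real.one_rpow] at a1
  have a2 : Tendsto (fun Λ : ℝ => Λ ^ (p + 3) * Real.exp (-Λ)) atTop (𝓝 0) := by
    simpa using tendsto_rpow_mul_exp_neg_mul_atTop_nhds_zero (p + 3) 1 one_pos
  have a3 : Tendsto (fun Λ : ℝ => K2 * (Λ ^ (p + 3) * Real.exp (-Λ))) atTop (𝓝 (K2 * 0)) :=
    a2.const_mul K2
  rw [mul_zero] at a3
  have a4 : Tendsto (fun Λ : ℝ => Λ ^ 3 * Real.exp (-Λ)) atTop (𝓝 0) :=
    Real.tendsto_pow_mul_exp_neg_atTop_nhds_zero 3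
  filter_upwards [(tendsto_LL p).eventually hQ, eventually_ge_atTop 1, eventually_ge_atTop K1,
    a1.eventually_const_lt (show 1 - ε < 1 by linarith), a3.eventually_lt_const ht',
    a4.eventually_lt_const one_pos] with Λ b1 b2 b3 b4 b5 b6
  exact ⟨b1, b2, b3, b4.le, b5.le, b6.le⟩

end Pool.Agent.Helper98.LogPoly
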