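import Pool.Agent.Helper87.LogPoly.Taylor

/-! Facts about `rho κ`, the asymptotic lower bound of `h` and the radial Taylor estimate. -/

set_option autoImplicit false

namespace Pool.Agent.Helper98.LogPoly

open Filter Topology Set

theorem nsq_nonneg (x : Pt) : 0 ≤ nsq x := by
  unfold nsq; positivity

theorem tendsto_nsq : Tendsto nsq cofinite atTop := by
  refine Filter.tendsto_atTop.2 fun R => ?_
  rw [eventually_cofinite]
  obtain ⟨m, hm⟩ := exists_nat_gt (max R 1)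
  have hmR : R < m := (le_max_left _ _).trans_lt hm
  have hm1 : (1:ℝ) < m := (le_max_right _ _).trans_lt hm
  refine Set.Finite.subset ((Set.finite_Icc (-(m:ℤ)) m).prod (Set.finite_Icc (-(m:ℤ)) m)) ?_
  rintro ⟨u, v⟩ hx
  simp only [not_le, Set.mem_setOf_eq, nsq] at hx
  have key : ∀ z : ℤ, ((z:ℝ)) ^ 2 < R → z ∈ Set.Icc (-(m:ℤ)) m := by
    intro z hz
    have h1 : (z:ℝ) ^ 2 < (m:ℝ) ^ 2 := by nlinarith only [hmR, hz, hm1]
    have h2 := abs_lt_of_sq_lt_sq h1 (by linarith)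
    rw [abs_lt] at h2
    constructor
    · have : ((-(m:ℤ) : ℤ) : ℝ) < (z : ℝ) := by push_cast; exact h2.1
      exact_mod_cast this.le
    · have : (z : ℝ) < ((m : ℤ) : ℝ) := by push_cast; exact h2.2
      exact_mod_cast this.le
  exact ⟨key u (by linarith only [hx, sq_nonneg (v:ℝ)]), key v (by nlinarith [sq_nonneg (u:ℝ)])⟩

/-- a cofinite property holds outside a large ball -/
theorem exists_radius {P : Pt → Prop} (hP : ∀ᶠ x in cofinite, P x) (κ W0 : ℝ) :
    ∃ W : ℝ, W0 ≤ W ∧ ∀ x, W < κ + nsq x → P x := by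
  rw [eventually_cofinite] at hP
  obtain ⟨W, hW⟩ := (hP.image (fun x => κ + nsq x)).bddAbove
  refine ⟨max W0 W, le_max_left _ _, fun x hx => ?_⟩
  by_contra hn
  have := hW ⟨x, hn, rfl⟩
  exact absurd (lt_of_le_of_lt (le_max_right W0 W) hx) (not_lt.2 this)

theorem exp_two_rho {κ : ℝ} (hκ : 0 < κ) (x : Pt) : Real.exp (2 * rho κ x) = κ + nsq x := by
  unfold rho
  have h := nsq_nonneg x
  rw [show 2 * (1 / 2 * Real.log (κ + nsq x)) = Real.log (κ + nsq x) by ring, Real.exp_log]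
  linarith

theorem one_le_rho {κ : ℝ} (hκ : 8 ≤ κ) (x : Pt) : 1 ≤ rho κ x := by
  unfold rho
  have h := nsq_nonneg x
  have h1 : (2:ℝ) ≤ Real.log (κ + nsq x) := by
    rw [Real.le_log_iff_exp_le (by linarith)]
    have h2 : Real.exp 2 = Real.exp 1 * Real.exp 1 := by rw [← Real.exp_add]; norm_num
    have h3 := Real.exp_one_lt_d9
    have h4 := Real.exp_pos 1
    rw [h2]
    nlinarith only [hκ, h, h3, h4]
  linarith

theorem rho_le_sqrt {κ : ℝ} (hκ : 8 ≤ κ) (x : Pt) : rho κ x ≤ Real.sqrt (κ + nsq x) := by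
  unfold rho
  have h := nsq_nonneg x
  have h0 : 0 < κ + nsq x := by linarith
  have h1 : Real.log (κ + nsq x) = 2 * Real.log (Real.sqrt (κ + nsq x)) := by
    rw [Real.log_sqrt h0.le]; ring
  rw [h1]
  have := Real.log_le_sub_one_of_pos (Real.sqrt_pos.2 h0)
  linarith

/-- constants for the radial expansion -/
theorem exists_kappa : ∃ C κ : ℝ, 0 < C ∧ 8 ≤ κ ∧ C + 1 ≤ κ ∧ ∀ x : Pt,
    |PD (rho κ) x - rho κ x - κ / (κ + nsq x) ^ 2| ≤ C / (κ + nsq x) ^ 2 ∧
    |PD (fun y => (rho κ y - rho κ x) ^ 2) x - nsq x / (κ + nsq x) ^ 2| ≤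
      C / ((κ + nsq x) * Real.sqrt (κ + nsq x)) ∧
    ∀ i j : Fin 4, |rho κ (x + stp i - stp j) - rho κ x| ≤ C / Real.sqrt (κ + nsq x) ∧
      |rho κ (x + stp i - stp j) - rho κ x| ≤ 1 / 2 := by
  obtain ⟨C, κ0, hκ0, hC, h⟩ := rad_bounds
  refine ⟨C, κ0 + (C + 8) + 4 * C ^ 2, hC, by nlinarith, by nlinarith only [hκ0], fun x => ?_⟩
  set κ := κ0 + (C + 8) + 4 * C ^ 2 with hκ
  obtain ⟨h1, h2, h3⟩ := h κ (by rw [hκ]; nlinarith only [hC]) x
  refine ⟨h1, h2, fun i j => ⟨h3 i j, (h3 i j).trans ?_⟩⟩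
  have hn := nsq_nonneg x
  have h4 : 2 * C ≤ Real.sqrt (κ + nsq x) := by
    apply Real.le_sqrt_of_sq_le
    rw [hκ]; linarith only [hκ0, hC, hn]
  rw [div_le_iff₀ (by linarith)]
  linarith

/-- the radial Taylor estimate -/
theorem radial {p : ℝ} (hp : 1 < p) {C κ : ℝ} (hC : 0 < C) (hκ : 8 ≤ κ)
    (hrad : ∀ x : Pt,
      |PD (rho κ) x - rho κ x - κ / (κ + nsq x) ^ 2| ≤ C / (κ + nsq x) ^ 2 ∧
      |PD (fun y => (rho κ y - rho κ x) ^ 2) x - nsq x / (κ + nsq x) ^ 2| ≤
        C / ((κ + nsq x) * Real.sqrt (κ + nsq x)) ∧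
      ∀ i j : Fin 4, |rho κ (x + stp i - stp j) - rho κ x| ≤ C / Real.sqrt (κ + nsq x) ∧
        |rho κ (x + stp i - stp j) - rho κ x| ≤ 1 / 2) (τ : ℝ) :
    ∃ K : ℝ, 0 < K ∧ ∀ c : ℝ, 0 < c → ∀ x : Pt, c * rho κ x ^ p ≤ τ →
      |PD (fun y => FF p c (rho κ y)) x - FF p c (rho κ x) +
        c * rho κ x ^ (p - 2) / (κ + nsq x) * FF p c (rho κ x)| ≤
        K * (c * rho κ x ^ (p - 2) / (κ + nsq x)) / Real.sqrt (κ + nsq x) := by
  obtain ⟨M, hM1, hM⟩ := GG_bounds hp τ
  obtain ⟨K, hK, hT⟩ := FF_taylor hp τ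
  refine ⟨M * p * (κ + C) + M * (C + κ) + K * C ^ 3, by positivity, ?_⟩
  intro c hc x hx
  obtain ⟨r1, r2, r3⟩ := hrad x
  have hn := nsq_nonneg x
  set w := κ + nsq x with hw
  have hw8 : 8 ≤ w := by rw [hw]; linarith
  have hw0 : 0 < w := by linarith
  set q := Real.sqrt w with hq
  have hq0 : 0 < q := Real.sqrt_pos.2 hw0
  have hqq : q * q = w := Real.mul_self_sqrt hw0.le
  have hq1 : 1 ≤ q := by nlinarith only [hκ, hn, hq0, hqq]
  set r := rho κ x with hr
  have hr1 : 1 ≤ r := one_le_rho hκ x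
  have hrq : r ≤ q := rho_le_sqrt hκ x
  have hr0 : 0 < r := by linarith
  obtain ⟨g0, g1⟩ := hM (c * r ^ p) (by positivity) hx
  set S := c * r ^ (p - 2) with hS
  have hS0 : 0 < S := by positivity
  -- pointwise Taylor
  have hpt : ∀ i j : Fin 4,
      |(fun y => FF p c (rho κ y) - (FF p c r + FF1 p c r * (rho κ y - r) -
        S * FF p c r * (rho κ y - r) ^ 2)) (x + stp i - stp j)| ≤ K * C ^ 3 * (S / w) / q := by
    intro i j
    obtain ⟨e1, e2⟩ := r3 i j
    have e3 := hT c hc r hr0 hx (rho κ (x + stp i - stp j)) (by linarith)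
    have e4 : (fun y => FF p c (rho κ y) - (FF p c r + FF1 p c r * (rho κ y - r) -
        S * FF p c r * (rho κ y - r) ^ 2)) (x + stp i - stp j) =
        FF p c (rho κ (x + stp i - stp j)) - FF p c r - FF1 p c r * (rho κ (x + stp i - stp j) - r)
          + c * r ^ (p - 2) * FF p c r * (rho κ (x + stp i - stp j) - r) ^ 2 := by
      simp only [hS]; ring
    rw [e4]
    refine e3.trans ?_
    have e5 : r ^ (p - 3) ≤ r ^ (p - 2) := Real.rpow_le_rpow_of_exponent_le hr1 (by linarith)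
    have e6 : |rho κ (x + stp i - stp j) - r| ^ 3 ≤ (C / q) ^ 3 :=
      pow_le_pow_left₀ (abs_nonneg _) e1 3
    calc K * (c * r ^ (p - 3)) * |rho κ (x + stp i - stp j) - r| ^ 3
        ≤ K * (c * r ^ (p - 2)) * (C / q) ^ 3 := by gcongr
      _ = K * C ^ 3 * (S / w) / q := by
          rw [← hqq, hS]; field_simp
  have hav := abs_PD_le (f := fun y => FF p c (rho κ y) - (FF p c r + FF1 p c r * (rho κ y - r) -
        S * FF p c r * (rho κ y - r) ^ 2)) (x := x) hpt
  have hPD : PD (fun y => FF p c (rho κ y) - (FF p c r + FF1 p c r * (rho κ y - r) -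
        S * FF p c r * (rho κ y - r) ^ 2)) x =
      PD (fun y => FF p c (rho κ y)) x - (FF p c r + FF1 p c r * (PD (rho κ) x - r) -
        S * FF p c r * PD (fun y => (rho κ y - r) ^ 2) x) := by
    rw [PD_sub, PD_sub (fun y => FF p c r + FF1 p c r * (rho κ y - r)), PD_add, PD_const_mul,
      PD_const_mul, PD_const, PD_sub, PD_const]
  rw [hPD] at hav
  set m1 := PD (rho κ) x - r with hm1
  set m2 := PD (fun y => (rho κ y - r) ^ 2) x with hm2
  -- the first moment
  have hm1' : |m1| ≤ (κ + C) / w ^ 2 := by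
    have := abs_sub_abs_le_abs_sub m1 (κ / w ^ 2)
    have h2 : |κ / w ^ 2| = κ / w ^ 2 := abs_of_nonneg (by positivity)
    rw [add_div]
    linarith
  have hA : |FF1 p c r * m1| ≤ M * p * (κ + C) * (S / w) / q := by
    rw [abs_mul]
    have e1 : |FF1 p c r| ≤ M * p * (S * r) := by
      unfold FF1
      rw [abs_mul, abs_of_nonneg (by positivity)]
      have e2 : r ^ (p - 1) = r ^ (p - 2) * r := by
        rw [← Real.rpow_add_one hr0.ne']; congr 1; ring
      rw [e2, hS]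
      calc c * p * (r ^ (p - 2) * r) * |GG1 p (c * r ^ p)|
          ≤ c * p * (r ^ (p - 2) * r) * M := by gcongr
        _ = _ := by ring
    calc |FF1 p c r| * |m1| ≤ (M * p * (S * r)) * ((κ + C) / w ^ 2) := by gcongr
      _ ≤ (M * p * (S * q)) * ((κ + C) / w ^ 2) := by gcongr
      _ = M * p * (κ + C) * (S / w) / q := by
          rw [← hqq]; field_simp
  have hB : |S * FF p c r * (m2 - 1 / w)| ≤ M * (C + κ) * (S / w) / q := by
    have e1 : |m2 - 1 / w| ≤ (C + κ) / (w * q) := by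
      have e2 : nsq x / w ^ 2 = 1 / w - κ / w ^ 2 := by
        have : nsq x = w - κ := by rw [hw]; ring
        rw [this]; field_simp
      have e3 : m2 - 1 / w = (m2 - nsq x / w ^ 2) - κ / w ^ 2 := by rw [e2]; ring
      rw [e3]
      refine (abs_sub _ _).trans ?_
      have e4 : |κ / w ^ 2| ≤ κ / (w * q) := by
        rw [abs_of_nonneg (by positivity)]
        apply div_le_div_of_nonneg_left (by linarith) (by positivity)
        rw [sq, ← hqq]
        nlinarith only [hκ, hn, hqq, hq0, mul_pos hq0 hq0, mul_pos (mul_pos hq0 hq0) hq0]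
      rw [add_div]
      linarith
    rw [abs_mul, abs_mul, abs_of_pos hS0]
    calc S * |FF p c r| * |m2 - 1 / w| ≤ S * M * ((C + κ) / (w * q)) := by
          gcongr
          exact g0
      _ = _ := by field_simp
  have e7 : PD (fun y => FF p c (rho κ y)) x - FF p c r + S / w * FF p c r =
      (PD (fun y => FF p c (rho κ y)) x - (FF p c r + FF1 p c r * m1 - S * FF p c r * m2)) +
        FF1 p c r * m1 - S * FF p c r * (m2 - 1 / w) := by
    field_simp
    ring
  rw [e7]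
  calc _ ≤ |PD (fun y => FF p c (rho κ y)) x - (FF p c r + FF1 p c r * m1 - S * FF p c r * m2)
          + FF1 p c r * m1| + |S * FF p c r * (m2 - 1 / w)| := abs_sub _ _
    _ ≤ |PD (fun y => FF p c (rho κ y)) x - (FF p c r + FF1 p c r * m1 - S * FF p c r * m2)|
          + |FF1 p c r * m1| + |S * FF p c r * (m2 - 1 / w)| := by
        gcongr; exact abs_add_le _ _
    _ ≤ K * C ^ 3 * (S / w) / q + M * p * (κ + C) * (S / w) / q + M * (C + κ) * (S / w) / q := by
        gcongr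
    _ = _ := by ring

end Pool.Agent.Helper98.LogPoly
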