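import Pool.Agent.Helper93.LogPoly.Bessel
import Pool.Agent.Helper94.LogPoly.Rad
/-! Only imports: pieces P1 (Bessel) and P2 (Rad) of MP_b30792_pr. -/
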