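import Pool.Agent.Helper87.LogPoly.Asym

/-! Piece P4 SUB of MP_b30792_pr: the subsolution. -/

set_option autoImplicit false

namespace Pool.Agent.Helper98.LogPoly

open Filter Topology Set

theorem exists_eps {x y : ℝ} (hx : 0 < x) (hxy : x < y) :
    ∃ ε : ℝ, 0 < ε ∧ ε ≤ 1 / 4 ∧ (1 + 3 * ε) * x ≤ (1 - ε) ^ 3 * y := by
  have hd : 0 < 3 * (x + y) := by linarith
  refine ⟨min (1 / 4) ((y - x) / (3 * (x + y))), ?_, min_le_left _ _, ?_⟩
  · apply lt_min (by norm_num)
    exact div_pos (by linarith) hd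
  · set ε := min (1 / 4) ((y - x) / (3 * (x + y))) with hε
    have h1 : ε ≤ 1 / 4 := min_le_left _ _
    have h0 : 0 ≤ ε := le_min (by norm_num) (div_nonneg (by linarith) hd.le)
    have h2 : ε * (3 * (x + y)) ≤ y - x := by
      rw [← le_div_iff₀ hd]; exact min_le_right _ _
    have h3 : 1 - 3 * ε ≤ (1 - ε) ^ 3 := by nlinarith [mul_nonneg h0 h0, mul_nonneg (mul_nonneg h0 h0) h0]
    have hy : 0 < y := by linarith
    nlinarith

/-- elementary: `e^λ ≤ 1 + 2λ` on `[0,1]` -/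
theorem exp_le_one_add_two {l : ℝ} (h0 : 0 ≤ l) (h1 : l ≤ 1) : Real.exp l ≤ 1 + 2 * l := by
  have := Real.abs_exp_sub_one_sub_id_le (x := l) (by rw [abs_of_nonneg h0]; exact h1)
  have h2 := (abs_le.1 this).2
  nlinarith

section core

variable {p C κ t' t'' ε3 c1 A c L : ℝ}

/-- the function `û` -/
noncomputable def uh (p κ A c L ε3 : ℝ) (x : Pt) : ℝ :=
  FF p c (rho κ x) + ε3 - A * c * (L - rho κ x)

/-- the subsolution -/
noncomputable def ph (p κ A c L ε3 : ℝ) (x : Pt) : ℝ :=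
  if rho κ x < L then max (uh p κ A c L ε3 x) 0 / (1 + ε3) else 0

theorem FF_range (hp : 1 < p) (ht' : 0 < t') (ht'' : t' < t'') (hG : GG p t' = -ε3)
    (hanti : ∀ s t, 0 ≤ s → s ≤ t → t ≤ t'' → GG p t ≤ GG p s)
    (hL : 1 ≤ L) (hc : c = t' / L ^ p) {r : ℝ} (hr0 : 0 < r) (hrL : r ≤ L) :
    -ε3 ≤ FF p c r ∧ FF p c r ≤ 1 ∧ c * r ^ p ≤ t' := by
  have hLp : 0 < L ^ p := Real.rpow_pos_of_pos (by linarith) _
  have hcpos : 0 < c := by rw [hc]; positivity
  have h1 : c * r ^ p ≤ t' := by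
    calc c * r ^ p ≤ c * L ^ p := by
          apply mul_le_mul_of_nonneg_left _ hcpos.le
          exact Real.rpow_le_rpow hr0.le hrL (by linarith)
      _ = t' := by rw [hc]; field_simp
  have h0 : 0 ≤ c * r ^ p := by positivity
  refine ⟨?_, ?_, h1⟩
  · rw [← hG]; exact hanti _ _ h0 h1 ht''.le
  · have := hanti 0 (c * r ^ p) le_rfl h0 (h1.trans ht''.le)
    rw [GG_zero] at this
    exact this

theorem beyond (hp : 1 < p) (ht' : 0 < t') (hG : GG p t' = -ε3)
    (hneg : ∀ t, 0 ≤ t → t ≤ t'' → GG1 p t ≤ -c1) (hc1 : 0 < c1)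
    (hL : 1 ≤ L) (hc : c = t' / L ^ p) (hLb : t' * (1 + 1 / (2 * L)) ^ p ≤ t'')
    (hLc : A ≤ p * c1 * L ^ (p - 1)) {r : ℝ} (h1 : L ≤ r) (h2 : r ≤ L + 1 / 2) :
    FF p c r + ε3 - A * c * (L - r) ≤ 0 := by
  have hL0 : 0 < L := by linarith
  have hLp : 0 < L ^ p := Real.rpow_pos_of_pos hL0 _
  have hcpos : 0 < c := by rw [hc]; positivity
  have hcL : c * L ^ p = t' := by rw [hc]; field_simp
  have hanti : AntitoneOn (fun r => FF p c r + A * c * r) (Icc L (L + 1 / 2)) := by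
    apply antitoneOn_of_hasDerivWithinAt_nonpos (f' := fun r => FF1 p c r + A * c)
      (convex_Icc _ _)
    · intro t ht
      have ht0 : 0 < t := by linarith [ht.1]
      exact ((hasDerivAt_FF hp c ht0).continuousAt.add
        ((continuous_const.mul continuous_id).continuousAt)).continuousWithinAt
    · intro t ht
      rw [interior_Icc] at ht
      have ht0 : 0 < t := by linarith [ht.1]
      have e := (hasDerivAt_FF hp c ht0).add ((hasDerivAt_id t).const_mul (A * c))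
      simp only [mul_one] at e
      exact e.hasDerivWithinAt
    · intro t ht
      rw [interior_Icc] at ht
      have ht0 : 0 < t := by linarith [ht.1]
      have e1 : c * t ^ p ≤ t'' := by
        have e2 : t ≤ L * (1 + 1 / (2 * L)) := by
          have : L * (1 + 1 / (2 * L)) = L + 1 / 2 := by field_simp
          linarith [ht.2]
        calc c * t ^ p ≤ c * (L * (1 + 1 / (2 * L))) ^ p := by
              apply mul_le_mul_of_nonneg_left _ hcpos.le
              exact Real.rpow_le_rpow ht0.le e2 (by linarith)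
          _ = c * L ^ p * (1 + 1 / (2 * L)) ^ p := by
              rw [Real.mul_rpow hL0.le (by positivity)]; ring
          _ ≤ t'' := by rw [hcL]; exact hLb
      have e3 := hneg (c * t ^ p) (by positivity) e1
      have e4 : L ^ (p - 1) ≤ t ^ (p - 1) :=
        Real.rpow_le_rpow hL0.le ht.1.le (by linarith)
      have e5 : 0 < t ^ (p - 1) := Real.rpow_pos_of_pos ht0 _
      unfold FF1
      have e6 : c * p * t ^ (p - 1) * GG1 p (c * t ^ p) ≤ c * p * t ^ (p - 1) * (-c1) :=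
        mul_le_mul_of_nonneg_left e3 (by positivity)
      have e7 : A * c ≤ p * c1 * t ^ (p - 1) * c := by
        apply mul_le_mul_of_nonneg_right _ hcpos.le
        refine hLc.trans ?_
        exact mul_le_mul_of_nonneg_left e4 (by positivity)
      nlinarith
  have := hanti (a := L) (b := r) ⟨le_rfl, by linarith⟩ ⟨h1, h2⟩ h1
  simp only at this
  have e8 : FF p c L = -ε3 := by unfold FF; rw [hcL, hG]
  rw [e8] at this
  linarith

theorem ph_nonneg (hε3 : 0 < ε3) (x : Pt) : 0 ≤ ph p κ A c L ε3 x := by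
  unfold ph
  split_ifs
  · exact div_nonneg (le_max_right _ _) (by linarith)
  · exact le_rfl

theorem uh_le (hp : 1 < p) (ht' : 0 < t') (ht'' : t' < t'') (hG : GG p t' = -ε3)
    (hanti : ∀ s t, 0 ≤ s → s ≤ t → t ≤ t'' → GG p t ≤ GG p s)
    (hL : 1 ≤ L) (hc : c = t' / L ^ p) (hA : 0 ≤ A) (hκ : 8 ≤ κ) {x : Pt} (hx : rho κ x < L) :
    uh p κ A c L ε3 x ≤ 1 + ε3 := by
  have hr := one_le_rho hκ x
  have hLp : 0 < L ^ p := Real.rpow_pos_of_pos (by linarith) _
  have hcpos : 0 < c := by rw [hc]; positivity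
  obtain ⟨_, h2, _⟩ := FF_range hp ht' ht'' hG hanti hL hc (by linarith : 0 < rho κ x) hx.le
  unfold uh
  have : 0 ≤ A * c * (L - rho κ x) := mul_nonneg (mul_nonneg hA hcpos.le) (by linarith)
  linarith

theorem ph_le_one (hp : 1 < p) (ht' : 0 < t') (ht'' : t' < t'') (hG : GG p t' = -ε3)
    (hanti : ∀ s t, 0 ≤ s → s ≤ t → t ≤ t'' → GG p t ≤ GG p s) (hε3 : 0 < ε3)
    (hL : 1 ≤ L) (hc : c = t' / L ^ p) (hA : 0 ≤ A) (hκ : 8 ≤ κ) (x : Pt) :
    ph p κ A c L ε3 x ≤ 1 := by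
  unfold ph
  split_ifs with h
  · rw [div_le_one (by linarith)]
    exact max_le (uh_le hp ht' ht'' hG hanti hL hc hA hκ h) (by linarith)
  · exact zero_le_one

theorem uh_le_ph (hp : 1 < p) (ht' : 0 < t') (hG : GG p t' = -ε3)
    (hneg : ∀ t, 0 ≤ t → t ≤ t'' → GG1 p t ≤ -c1) (hc1 : 0 < c1) (hε3 : 0 < ε3)
    (hL : 1 ≤ L) (hc : c = t' / L ^ p) (hLb : t' * (1 + 1 / (2 * L)) ^ p ≤ t'')
    (hLc : A ≤ p * c1 * L ^ (p - 1)) {y : Pt} (hy : rho κ y ≤ L + 1 / 2) :
    uh p κ A c L ε3 y ≤ (1 + ε3) * ph p κ A c L ε3 y := by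
  unfold ph
  split_ifs with h
  · rw [mul_div_cancel₀ _ (by linarith : (1 + ε3) ≠ 0)]
    exact le_max_left _ _
  · rw [mul_zero]
    exact beyond hp ht' hG hneg hc1 hL hc hLb hLc (not_lt.1 h) hy

theorem PD_uh (x : Pt) : PD (uh p κ A c L ε3) x = uh p κ A c L ε3 x +
    (PD (fun y => FF p c (rho κ y)) x - FF p c (rho κ x)) +
      A * c * (PD (rho κ) x - rho κ x) := by
  have e : PD (uh p κ A c L ε3) x =
      PD (fun y => (FF p c (rho κ y) + (ε3 - A * c * L)) + (A * c) * rho κ y) x := by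
    congr 1
    funext y
    unfold uh
    ring
  rw [e, PD_add, PD_add, PD_const, PD_const_mul]
  unfold uh
  ring

end core

end Pool.Agent.Helper98.LogPoly
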