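import Pool.Agent.Helper87.LogPoly.Sub

/-! Piece P4 SUB of MP_b30792_pr: main theorem. -/

set_option autoImplicit false

namespace Pool.Agent.Helper98.LogPoly

open Filter Topology Set

theorem case_far {F S q u D Y ε ε3 K2 t' : ℝ} (hF1 : -ε3 ≤ F) (hF2 : F ≤ 1) (hS : 0 < S)
    (hq : 1 ≤ q) (hSq : S ≤ t' / q) (hu : u = F + ε3 - Y) (hY : 4 * (1 + 3 * ε) * Y ≤ ε3)
    (hε : 0 < ε) (hε1 : ε ≤ 1 / 4) (hK2 : 0 < K2) (hε3 : 0 < ε3)
    (hD : -(S * F) - K2 * S / q ≤ D) (hK : 4 * (K2 + 2 * (1 + K2) * t') / q ≤ ε3) :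
    u + S * (ε3 / 2) ≤ (1 + (1 + 3 * ε) * S) * (u + D) := by
  have hq0 : 0 < q := by linarith
  have h1 : (1 + (1 + 3 * ε) * S) * (u + (-(S * F) - K2 * S / q)) ≤
      (1 + (1 + 3 * ε) * S) * (u + D) :=
    mul_le_mul_of_nonneg_left (by linarith) (by positivity)
  refine le_trans ?_ h1
  have e1 : (1 + (1 + 3 * ε) * S) * (u + (-(S * F) - K2 * S / q)) =
      u + S * ((1 + 3 * ε) * u - F - K2 / q - (1 + 3 * ε) * (S * F + K2 / q * S)) := by
    field_simp
    ring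
  rw [e1]
  have h2 : K2 / q ≤ K2 := div_le_self hK2.le hq
  have h3 : (1 + 3 * ε) * (S * F + K2 / q * S) ≤ 2 * (1 + K2) * t' / q := by
    have a1 : S * F + K2 / q * S ≤ (1 + K2) * S := by nlinarith
    have a2 : (1 + 3 * ε) * (S * F + K2 / q * S) ≤ (1 + 3 * ε) * ((1 + K2) * S) :=
      mul_le_mul_of_nonneg_left a1 (by linarith)
    have a3 : (1 + 3 * ε) * ((1 + K2) * S) ≤ 2 * ((1 + K2) * S) :=
      mul_le_mul_of_nonneg_right (by linarith) (by positivity)
    have a4 : 2 * ((1 + K2) * S) ≤ 2 * ((1 + K2) * (t' / q)) := by gcongr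
    calc _ ≤ _ := a2
      _ ≤ _ := a3
      _ ≤ _ := a4
      _ = _ := by ring
  have h4 : K2 / q + 2 * (1 + K2) * t' / q ≤ ε3 / 4 := by
    have : 4 * (K2 + 2 * (1 + K2) * t') / q = 4 * (K2 / q + 2 * (1 + K2) * t' / q) := by ring
    linarith
  have h5 : ε3 / 2 ≤ (1 + 3 * ε) * u - F - K2 / q - (1 + 3 * ε) * (S * F + K2 / q * S) := by
    have h6 : (1 + 3 * ε) * u ≥ (1 + 3 * ε) * (F + ε3) - ε3 / 4 := by
      rw [hu]; nlinarith
    have h7 : (1 + 3 * ε) * (F + ε3) - F ≥ ε3 := by nlinarith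
    linarith
  have := mul_le_mul_of_nonneg_left h5 hS.le
  linarith

theorem final_step {u ε3 l X G P : ℝ} (hε3 : 0 < ε3) (hu0 : 0 < u) (hu : u ≤ 1 + ε3)
    (hl0 : 0 ≤ l) (hl1 : l ≤ 1) (hX : 2 * l * (1 + ε3) ≤ X) (h : u + X ≤ G * ((1 + ε3) * P)) :
    u / (1 + ε3) ≤ Real.exp (-l) * G * P := by
  have h1 := exp_le_one_add_two hl0 hl1
  have h2 : u * Real.exp l ≤ u + X := by nlinarith
  have h3 : u * Real.exp l ≤ G * ((1 + ε3) * P) := h2.trans h
  rw [div_le_iff₀ (by linarith)]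
  have h4 := Real.exp_pos l
  have h5 : Real.exp (-l) * Real.exp l = 1 := by rw [← Real.exp_add]; simp
  have h6 : Real.exp (-l) * (u * Real.exp l) ≤ Real.exp (-l) * (G * ((1 + ε3) * P)) :=
    mul_le_mul_of_nonneg_left h3 (Real.exp_pos _).le
  calc u = Real.exp (-l) * (u * Real.exp l) := by
        rw [show Real.exp (-l) * (u * Real.exp l) = u * (Real.exp (-l) * Real.exp l) by ring, h5,
          mul_one]
    _ ≤ _ := h6
    _ = _ := by ring

theorem exp_two_LL {p Λ : ℝ} (hΛ : 1 ≤ Λ) :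
    Real.exp (2 * LL p Λ) * Λ ^ (p + 5) = Real.exp Λ := by
  rw [Real.rpow_def_of_pos (by linarith), ← Real.exp_add]
  congr 1
  unfold LL
  ring

theorem S_lower {p : ℝ} (hp : 1 < p) {t' Λ r : ℝ} (ht' : 0 < t') (hΛ : 1 ≤ Λ) (hr : 1 ≤ r)
    (hrL : r < LL p Λ) :
    t' * (Λ ^ 4 * Real.exp (-Λ)) ≤ t' / LL p Λ ^ p * r ^ (p - 2) / Real.exp (2 * r) := by
  set L := LL p Λ with hL
  have hL0 : 0 < L := by linarith
  have hΛ0 : 0 < Λ := by linarith
  have hLΛ : L ≤ Λ := by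
    rw [hL]; unfold LL
    have := Real.log_nonneg hΛ
    nlinarith
  have hLp : 0 < L ^ p := Real.rpow_pos_of_pos hL0 _
  have h1 : Λ ^ (-(p + 1)) ≤ r ^ (p - 2) / L ^ p := by
    rcases le_total 2 p with h | h
    · have a1 : 1 ≤ r ^ (p - 2) := Real.one_le_rpow hr (by linarith)
      have a2 : L ^ p ≤ Λ ^ (p + 1) :=
        (Real.rpow_le_rpow hL0.le hLΛ (by linarith)).trans
          (Real.rpow_le_rpow_of_exponent_le hΛ (by linarith))
      rw [le_div_iff₀ hLp, Real.rpow_neg hΛ0.le]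
      have a3 : 0 < Λ ^ (p + 1) := Real.rpow_pos_of_pos hΛ0 _
      calc (Λ ^ (p + 1))⁻¹ * L ^ p ≤ (Λ ^ (p + 1))⁻¹ * Λ ^ (p + 1) := by gcongr
        _ = 1 := inv_mul_cancel₀ a3.ne'
        _ ≤ _ := a1
    · have a1 : L ^ (p - 2) ≤ r ^ (p - 2) :=
        Real.rpow_le_rpow_of_nonpos (by linarith) hrL.le (by linarith)
      have a2 : L ^ (p - 2) / L ^ p = L ^ (-2 : ℝ) := by
        rw [← Real.rpow_sub hL0]; congr 1; ring
      have a3 : Λ ^ (-2 : ℝ) ≤ L ^ (-2 : ℝ) :=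
        Real.rpow_le_rpow_of_nonpos hL0 hLΛ (by norm_num)
      have a4 : Λ ^ (-(p + 1)) ≤ Λ ^ (-2 : ℝ) :=
        Real.rpow_le_rpow_of_exponent_le hΛ (by linarith)
      calc _ ≤ _ := a4
        _ ≤ _ := a3
        _ = _ := a2.symm
        _ ≤ _ := by gcongr
  have h2 : Λ ^ (p + 5) * Real.exp (-Λ) ≤ 1 / Real.exp (2 * r) := by
    have b1 := exp_two_LL (p := p) hΛ
    have b2 : Real.exp (2 * r) ≤ Real.exp (2 * L) := Real.exp_le_exp.2 (by linarith)
    have b3 : 0 < Real.exp (2 * r) := Real.exp_pos _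
    have b4 : 0 < Λ ^ (p + 5) := Real.rpow_pos_of_pos hΛ0 _
    rw [le_div_iff₀ b3, Real.exp_neg]
    have b5 : 0 < Real.exp Λ := Real.exp_pos _
    rw [← div_eq_mul_inv, div_mul_eq_mul_div, div_le_one b5, ← b1]
    rw [mul_comm]
    exact mul_le_mul_of_nonneg_right b2 b4.le
  have h3 : Λ ^ (-(p + 1)) * (Λ ^ (p + 5) * Real.exp (-Λ)) ≤
      r ^ (p - 2) / L ^ p * (1 / Real.exp (2 * r)) :=
    mul_le_mul h1 h2 (by positivity) (by positivity)
  have h4 : Λ ^ (-(p + 1)) * (Λ ^ (p + 5) * Real.exp (-Λ)) = Λ ^ 4 * Real.exp (-Λ) := by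
    rw [← mul_assoc, ← Real.rpow_add hΛ0]
    congr 1
    rw [show -(p + 1) + (p + 5) = ((4 : ℕ) : ℝ) by push_cast; ring, Real.rpow_natCast]
  rw [h4] at h3
  calc t' * (Λ ^ 4 * Real.exp (-Λ)) ≤ t' * (r ^ (p - 2) / L ^ p * (1 / Real.exp (2 * r))) :=
        mul_le_mul_of_nonneg_left h3 ht'.le
    _ = _ := by ring

theorem sub_aux {p : ℝ} (hp : 1 < p) {h : Pt → ℝ} (hh : HAsym (p - 2) h)
    {t2 : ℝ} (ht2 : tst p < t2) :
    ∃ ρ0 c1 δ ℓ0 : ℝ, 1 < ρ0 ∧ 0 < c1 ∧ 0 < δ ∧ ∀ ℓ : ℕ, ℓ0 ≤ (ℓ : ℝ) → ∀ B : ℝ, 0 < B →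
      t2 ≤ B * ((1 / 2) * Real.log ℓ) ^ p → ∀ H : Pt → ℝ, (∀ x, 0 ≤ H x) →
      (∀ x, nsq x ≤ ℓ → (1 - δ) * h x ≤ H x) →
      ∃ φ : Pt → ℝ, (∀ x, 0 ≤ φ x) ∧ (∀ x, φ x ≤ 1) ∧
        (∀ x, φ x ≤ Real.exp (-((Real.log ℓ) ^ 3 / ℓ)) * (1 + B * H x / ρ0) * PD φ x) ∧
        c1 ≤ PD φ 0 := by
  obtain ⟨t', t'', ε3, c1, ht', ht'', ht2', hε3, hc1, hG, hneg, hanti⟩ := G_consts hp ht2
  have ht2pos : 0 < t2 := by linarith
  set ρ0 := Real.sqrt (t2 / t') with hρ0
  have hρ1 : 1 < ρ0 := by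
    rw [hρ0, Real.lt_sqrt (by norm_num), one_pow, one_lt_div ht']
    exact ht2'
  have hρpos : 0 < ρ0 := by linarith
  have hρsq : ρ0 ^ 2 = t2 / t' := Real.sq_sqrt (by positivity)
  have hlt : t' < t2 / ρ0 := by
    rw [lt_div_iff₀ hρpos]
    have : t2 = ρ0 ^ 2 * t' := by rw [hρsq]; field_simp
    rw [this]
    nlinarith [mul_pos ht' hρpos]
  obtain ⟨ε, hε, hε1, hεq⟩ := exists_eps ht' hlt
  obtain ⟨C, κ, hC, hκ, hCκ, hrad⟩ := exists_kappa
  obtain ⟨K2, hK2, hR⟩ := radial hp hC hκ hrad t''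
  obtain ⟨W, hW0, hW⟩ := exists_radius (h_lower hh hκ hε) κ
    (max 1 ((4 * (K2 + 2 * (1 + K2) * t') / ε3) ^ 2))
  have hW1 : 1 ≤ W := (le_max_left _ _).trans hW0
  have hW2 : (4 * (K2 + 2 * (1 + K2) * t') / ε3) ^ 2 ≤ W := (le_max_right _ _).trans hW0
  set C4 := (1 + K2) * W ^ |p - 2| with hC4
  have hC40 : 0 < C4 := by rw [hC4]; positivity
  set A := W ^ 2 * (C4 + 1) with hA
  have hA0 : 0 < A := by rw [hA]; positivity
  set r1 := rho κ 0 + 1 / 2 with hr1
  have hLcond := L_conditions hp ht' ht'' A c1 ε3 r1 (4 * (1 + 3 * ε)) hc1 hε3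
  have hΛcond := Lam_conditions (p := p) hε ht' (4 * (1 + ε3) / (ε3 * t')) (2 * (1 + ε3)) hLcond
  obtain ⟨Λ0, hΛ0⟩ := eventually_atTop.1 hΛcond
  refine ⟨ρ0, 1 / 2 / (1 + ε3) + 0, ε, Real.exp Λ0, hρ1, by positivity, hε, ?_⟩
  intro ℓ hℓ B hB hBt H hH0 hH
  have hℓ0 : (0:ℝ) < ℓ := (Real.exp_pos _).trans_le hℓ
  set Λ := Real.log ℓ with hΛ
  have hexpΛ : Real.exp Λ = ℓ := Real.exp_log hℓ0
  have hΛ0' : Λ0 ≤ Λ := by
    rw [hΛ, Real.le_log_iff_exp_le hℓ0]; exact hℓ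
  obtain ⟨⟨hL1, hLr, hLb, hLc, hLd, hLe, hLf⟩, hΛ1, hΛK, hΛf, hΛj, hΛk⟩ := hΛ0 Λ hΛ0'
  set L := LL p Λ with hL
  have hL0 : 0 < L := by linarith
  have hΛpos : 0 < Λ := by linarith
  have hLp : 0 < L ^ p := Real.rpow_pos_of_pos hL0 _
  have hLΛ : L ≤ Λ / 2 := by
    rw [hL]; unfold LL
    have := Real.log_nonneg hΛ1
    nlinarith only [this, hp]
  obtain ⟨c, hc⟩ : ∃ c, c = t' / L ^ p := ⟨_, rfl⟩
  have hc0 : 0 < c := by rw [hc]; positivity
  have hAcL : A * c * L = A * t' / L ^ (p - 1) := by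
    rw [hc, Real.rpow_sub_one hL0.ne']
    field_simp
  -- the small number λ
  set l := Λ ^ 3 / ℓ with hl
  have hl0 : 0 ≤ l := by positivity
  have hlexp : l = Λ ^ 3 * Real.exp (-Λ) := by
    rw [hl, Real.exp_neg, hexpΛ]; rfl
  have hl1 : l ≤ 1 := by rw [hlexp]; exact hΛk
  have hφ0 : ∀ x, 0 ≤ ph p κ A c L ε3 x := fun x => ph_nonneg hε3 x
  refine ⟨ph p κ A c L ε3, hφ0,
    fun x => ph_le_one hp ht' ht'' hG hanti hε3 hL1 hc hA0.le hκ x, ?_, ?_⟩
  · intro x
    have hPD0 : 0 ≤ PD (ph p κ A c L ε3) x := const_le_PD fun i j => hφ0 _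
    have hG1 : 1 ≤ 1 + B * H x / ρ0 := by
      have : 0 ≤ B * H x / ρ0 := div_nonneg (mul_nonneg hB.le (hH0 x)) hρpos.le
      linarith
    have hRHS : 0 ≤ Real.exp (-l) * (1 + B * H x / ρ0) * PD (ph p κ A c L ε3) x :=
      mul_nonneg (mul_nonneg (Real.exp_pos _).le (by linarith)) hPD0
    by_cases hxL : rho κ x < L
    swap
    · have : ph p κ A c L ε3 x = 0 := by unfold ph; rw [if_neg hxL]
      rw [this]; exact hRHS
    by_cases hu : uh p κ A c L ε3 x ≤ 0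
    · have : ph p κ A c L ε3 x = 0 := by
        unfold ph; rw [if_pos hxL, max_eq_right hu, zero_div]
      rw [this]; exact hRHS
    have hu0 : 0 < uh p κ A c L ε3 x := not_le.1 hu
    have hφx : ph p κ A c L ε3 x = uh p κ A c L ε3 x / (1 + ε3) := by
      unfold ph; rw [if_pos hxL, max_eq_left hu0.le]
    rw [hφx]
    have hule := uh_le hp ht' ht'' hG hanti hL1 hc hA0.le hκ hxL
    -- basic quantities
    obtain ⟨q1, q2, q3⟩ := hrad x
    have hn := nsq_nonneg x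
    obtain ⟨w, hw⟩ : ∃ w, w = κ + nsq x := ⟨_, rfl⟩
    obtain ⟨r, hr⟩ : ∃ r, r = rho κ x := ⟨_, rfl⟩
    have hwe : Real.exp (2 * r) = w := by rw [hr, hw]; exact exp_two_rho (by linarith) x
    have hr1' : 1 ≤ r := by rw [hr]; exact one_le_rho hκ x
    have hrq : r ≤ Real.sqrt w := by rw [hr, hw]; exact rho_le_sqrt hκ x
    have hw8 : 8 ≤ w := by rw [hw]; linarith
    have hw0 : 0 < w := by linarith
    rw [← hr] at hxL q1 q2 q3
    rw [← hw] at q1 q2 q3
    obtain ⟨hF1, hF2, hcr⟩ := FF_range hp ht' ht'' hG hanti hL1 hc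
      (by linarith : 0 < r) hxL.le
    have hRx := hR c hc0 x (by rw [← hr]; exact hcr.trans ht''.le)
    rw [← hr, ← hw] at hRx
    obtain ⟨q, hq⟩ : ∃ q, q = Real.sqrt w := ⟨_, rfl⟩
    rw [← hq] at hRx hrq
    have hqq : q * q = w := by rw [hq]; exact Real.mul_self_sqrt hw0.le
    have hq0 : 0 < q := by rw [hq]; exact Real.sqrt_pos.2 hw0
    have hq1 : 1 ≤ q := by nlinarith only [hqq, hw8, hq0]
    have hqw : q ≤ w := by
      rw [← hqq]
      exact le_mul_of_one_le_left hq0.le hq1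
    have hrp : 0 < r ^ (p - 2) := Real.rpow_pos_of_pos (by linarith) _
    obtain ⟨S, hS⟩ : ∃ S, S = c * r ^ (p - 2) / w := ⟨_, rfl⟩
    have hS0 : 0 < S := by rw [hS]; positivity
    rw [← hS] at hRx
    obtain ⟨D, hD⟩ : ∃ D, D = PD (fun y => FF p c (rho κ y)) x - FF p c r := ⟨_, rfl⟩
    rw [← hD] at hRx
    have hDlow : -(S * FF p c r) - K2 * S / q ≤ D := by
      have := (abs_le.1 hRx).1
      linarith
    have hm1 : 1 / w ^ 2 ≤ PD (rho κ) x - r := by
      have := (abs_le.1 q1).1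
      have h2 : κ / w ^ 2 - C / w ^ 2 ≤ PD (rho κ) x - r := by linarith
      refine le_trans ?_ h2
      rw [← sub_div]
      exact div_le_div_of_nonneg_right (by linarith) (by positivity)
    -- comparison of PD û with PD φ
    have hcomp : uh p κ A c L ε3 x + (D + A * c * (PD (rho κ) x - r)) ≤
        (1 + ε3) * PD (ph p κ A c L ε3) x := by
      rw [← PD_const_mul]
      have e := PD_uh (p := p) (κ := κ) (A := A) (c := c) (L := L) (ε3 := ε3) x
      rw [← hr, ← hD] at e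
      have e2 : uh p κ A c L ε3 x + (D + A * c * (PD (rho κ) x - r)) =
          PD (uh p κ A c L ε3) x := by rw [e]; ring
      rw [e2]
      apply PD_le
      intro i j
      apply uh_le_ph hp ht' hG hneg hc1 hε3 hL1 hc hLb hLc
      have := (abs_le.1 (q3 i j).2).2
      linarith
    have hm0 : 0 ≤ PD (rho κ) x - r := le_trans (by positivity) hm1
    rcases lt_or_ge W w with hfar | hnear
    · -- far region
      have hhx := hW x (by rw [← hw]; exact hfar)
      rw [← hr, ← hw] at hhx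
      have hqK : 4 * (K2 + 2 * (1 + K2) * t') / q ≤ ε3 := by
        have h1 : 4 * (K2 + 2 * (1 + K2) * t') / ε3 ≤ q := by
          rw [hq]
          apply Real.le_sqrt_of_sq_le
          exact hW2.trans hfar.le
        rw [div_le_iff₀ hq0]
        rw [div_le_iff₀ hε3] at h1
        linarith
      have hSq : S ≤ t' / q := by
        have h1 : c * r ^ (p - 2) ≤ t' := by
          refine le_trans ?_ hcr
          apply mul_le_mul_of_nonneg_left _ hc0.le
          exact Real.rpow_le_rpow_of_exponent_le hr1' (by linarith)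
        rw [hS]
        calc c * r ^ (p - 2) / w ≤ t' / w := by gcongr
          _ ≤ t' / q := by gcongr
      have hY : 4 * (1 + 3 * ε) * (A * c * (L - r)) ≤ ε3 := by
        refine le_trans ?_ hLd
        rw [← hAcL]
        apply mul_le_mul_of_nonneg_left _ (by positivity)
        apply mul_le_mul_of_nonneg_left (by linarith) (by positivity)
      have hX := case_far (F := FF p c r) (S := S) (q := q) (u := uh p κ A c L ε3 x)
        (D := D + A * c * (PD (rho κ) x - r)) (Y := A * c * (L - r)) (ε := ε) (ε3 := ε3)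
        (K2 := K2) (t' := t') hF1 hF2 hS0 hq1 hSq (by unfold uh; rw [← hr]) hY hε hε1 hK2 hε3
        (by
          have : 0 ≤ A * c * (PD (rho κ) x - r) := by positivity
          linarith) hqK
      -- V'' ≤ B H / ρ0
      have hV : (1 + 3 * ε) * S ≤ B * H x / ρ0 := by
        have hnl : nsq x ≤ ℓ := by
          have a1 : nsq x ≤ w := by rw [hw]; linarith
          have a2 : w ≤ Real.exp Λ := by
            rw [← hwe]; apply Real.exp_le_exp.2; linarith
          rw [hexpΛ] at a2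
          exact a1.trans a2
        have hHx := hH x hnl
        have h1 : (1 - ε) * ((1 - ε) * (r ^ (p - 2) / w)) ≤ H x :=
          le_trans (mul_le_mul_of_nonneg_left hhx (by linarith)) hHx
        have h2 : t2 * (1 - ε) ≤ B * L ^ p := by
          have h3 : (L / (1 / 2 * Λ)) ^ p = L ^ p / (1 / 2 * Λ) ^ p :=
            Real.div_rpow hL0.le (by positivity) p
          rw [h3] at hΛf
          have h4 : 0 < (1 / 2 * Λ) ^ p := Real.rpow_pos_of_pos (by positivity) _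
          rw [le_div_iff₀ h4] at hΛf
          calc t2 * (1 - ε) ≤ (B * (1 / 2 * Λ) ^ p) * (1 - ε) :=
                mul_le_mul_of_nonneg_right hBt (by linarith)
            _ = B * ((1 - ε) * (1 / 2 * Λ) ^ p) := by ring
            _ ≤ B * L ^ p := mul_le_mul_of_nonneg_left hΛf hB.le
        rw [le_div_iff₀ hρpos]
        have h5 : (1 + 3 * ε) * t' * ρ0 ≤ (1 - ε) ^ 3 * t2 := by
          have := mul_le_mul_of_nonneg_right hεq hρpos.le
          rw [mul_assoc ((1 - ε) ^ 3), div_mul_cancel₀ _ hρpos.ne'] at this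
          exact this
        have h6 : (1 + 3 * ε) * c * ρ0 ≤ (1 - ε) ^ 2 * B := by
          have h7 : (1 + 3 * ε) * c * ρ0 = ((1 + 3 * ε) * t' * ρ0) / L ^ p := by
            rw [hc]; ring
          rw [h7, div_le_iff₀ hLp]
          calc (1 + 3 * ε) * t' * ρ0 ≤ (1 - ε) ^ 3 * t2 := h5
            _ = (1 - ε) ^ 2 * (t2 * (1 - ε)) := by ring
            _ ≤ (1 - ε) ^ 2 * (B * L ^ p) := by gcongr
            _ = _ := by ring
        calc (1 + 3 * ε) * S * ρ0 = ((1 + 3 * ε) * c * ρ0) * (r ^ (p - 2) / w) := by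
              rw [hS]; ring
          _ ≤ ((1 - ε) ^ 2 * B) * (r ^ (p - 2) / w) := by gcongr
          _ = B * ((1 - ε) * ((1 - ε) * (r ^ (p - 2) / w))) := by ring
          _ ≤ B * H x := mul_le_mul_of_nonneg_left h1 hB.le
      have hSlow := S_lower hp ht' hΛ1 hr1' hxL
      rw [hwe, ← hL, ← hc, ← hS] at hSlow
      refine final_step hε3 hu0 hule hl0 hl1 (X := S * (ε3 / 2)) ?_ ?_
      · have h1 : 4 * (1 + ε3) ≤ Λ * (ε3 * t') := by
          rwa [div_le_iff₀ (by positivity)] at hΛK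
        calc 2 * l * (1 + ε3) = l * (4 * (1 + ε3)) / 2 := by ring
          _ ≤ l * (Λ * (ε3 * t')) / 2 := by gcongr
          _ = (t' * (Λ ^ 4 * Real.exp (-Λ))) * (ε3 / 2) := by rw [hlexp]; ring
          _ ≤ S * (ε3 / 2) := by gcongr
      · refine hX.trans ?_
        have hpos : 0 ≤ (1 + ε3) * PD (ph p κ A c L ε3) x := by positivity
        calc (1 + (1 + 3 * ε) * S) * (uh p κ A c L ε3 x + (D + A * c * (PD (rho κ) x - r)))
            ≤ (1 + (1 + 3 * ε) * S) * ((1 + ε3) * PD (ph p κ A c L ε3) x) :=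
              mul_le_mul_of_nonneg_left hcomp (by positivity)
          _ ≤ (1 + B * H x / ρ0) * ((1 + ε3) * PD (ph p κ A c L ε3) x) :=
              mul_le_mul_of_nonneg_right (by linarith) hpos
    · -- near region
      have hSC : (1 + K2) * S ≤ c * C4 := by
        have h1 : r ^ (p - 2) ≤ W ^ |p - 2| := by
          calc r ^ (p - 2) ≤ r ^ |p - 2| := Real.rpow_le_rpow_of_exponent_le hr1' (le_abs_self _)
            _ ≤ W ^ |p - 2| := Real.rpow_le_rpow (by linarith) (by linarith) (abs_nonneg _)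
        have h2 : S ≤ c * W ^ |p - 2| := by
          rw [hS]
          calc c * r ^ (p - 2) / w ≤ c * r ^ (p - 2) := div_le_self (by positivity) (by linarith)
            _ ≤ _ := mul_le_mul_of_nonneg_left h1 hc0.le
        calc (1 + K2) * S ≤ (1 + K2) * (c * W ^ |p - 2|) := by gcongr
          _ = c * C4 := by rw [hC4]; ring
      have hDm : -(c * C4) ≤ D := by
        refine le_trans ?_ hDlow
        have h1 : K2 * S / q ≤ K2 * S := div_le_self (by positivity) hq1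
        have h2 : S * FF p c r ≤ S := mul_le_of_le_one_right hS0.le hF2
        linarith
      have hAm : c * (C4 + 1) ≤ A * c * (PD (rho κ) x - r) := by
        have h1 : 1 / W ^ 2 ≤ 1 / w ^ 2 := by
          apply div_le_div_of_nonneg_left (by norm_num) (by positivity)
          exact pow_le_pow_left₀ hw0.le hnear 2
        calc c * (C4 + 1) = A * c * (1 / W ^ 2) := by
              rw [hA]
              field_simp
          _ ≤ A * c * (PD (rho κ) x - r) :=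
              mul_le_mul_of_nonneg_left (h1.trans hm1) (by positivity)
      refine final_step hε3 hu0 hule hl0 hl1 (X := c) ?_ ?_
      · -- 2 l (1+ε3) ≤ c
        rw [hc, le_div_iff₀ hLp]
        have h1 : L ^ p ≤ Λ ^ p := Real.rpow_le_rpow hL0.le (by linarith) (by linarith)
        have h2 : Λ ^ (p + 3) = Λ ^ p * Λ ^ 3 := by
          rw [Real.rpow_add hΛpos]
          congr 1
          exact_mod_cast Real.rpow_natCast Λ 3
        calc 2 * l * (1 + ε3) * L ^ p ≤ 2 * l * (1 + ε3) * Λ ^ p := by gcongr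
          _ = 2 * (1 + ε3) * (Λ ^ (p + 3) * Real.exp (-Λ)) := by rw [hlexp, h2]; ring
          _ ≤ t' := hΛj
      · have hpos : 0 ≤ (1 + ε3) * PD (ph p κ A c L ε3) x := by positivity
        calc uh p κ A c L ε3 x + c ≤
              uh p κ A c L ε3 x + (D + A * c * (PD (rho κ) x - r)) := by linarith
          _ ≤ (1 + ε3) * PD (ph p κ A c L ε3) x := hcomp
          _ ≤ (1 + B * H x / ρ0) * ((1 + ε3) * PD (ph p κ A c L ε3) x) :=
              le_mul_of_one_le_left hpos hG1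
  · -- value at the origin
    rw [add_zero]
    apply const_le_PD
    intro i j
    obtain ⟨q1, q2, q3⟩ := hrad 0
    have hy := (abs_le.1 (q3 i j).2).2
    set y : Pt := 0 + stp i - stp j with hyd
    have hyr : rho κ y ≤ r1 := by rw [hr1]; linarith
    have hyL : rho κ y < L := hyr.trans_lt hLr
    have hy1 := one_le_rho hκ y
    have hFy : 3 / 4 ≤ FF p c (rho κ y) := by
      refine hLf.trans ?_
      unfold FF
      rw [← hc]
      apply hanti
      · positivity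
      · apply mul_le_mul_of_nonneg_left _ hc0.le
        exact Real.rpow_le_rpow (by linarith) hyr (by linarith)
      · refine le_trans ?_ ht''.le
        exact (FF_range hp ht' ht'' hG hanti hL1 hc (by linarith : 0 < r1) hLr.le).2.2
    have hyA : A * c * (L - rho κ y) ≤ 1 / 4 := by
      refine le_trans ?_ hLe
      rw [← hAcL]
      exact mul_le_mul_of_nonneg_left (by linarith) (by positivity)
    have huy : 1 / 2 ≤ uh p κ A c L ε3 y := by
      unfold uh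
      linarith
    unfold ph
    rw [if_pos hyL]
    apply div_le_div_of_nonneg_right _ (by linarith)
    exact huy.trans (le_max_left _ _)

theorem sub_solution {a : ℝ} (ha : -1 < a) {h : Pt → ℝ} (hnn : ∀ x, 0 ≤ h x) (hh : HAsym a h)
    {t2 : ℝ} (ht2 : tst (a + 2) < t2) :
    ∃ ρ0 c1 δ ℓ0 : ℝ, 1 < ρ0 ∧ 0 < c1 ∧ 0 < δ ∧ ∀ ℓ : ℕ, ℓ0 ≤ (ℓ : ℝ) → ∀ B : ℝ, 0 < B →
      t2 ≤ B * ((1 / 2) * Real.log ℓ) ^ (a + 2) → ∀ H : Pt → ℝ, (∀ x, 0 ≤ H x) →
      (∀ x, nsq x ≤ ℓ → (1 - δ) * h x ≤ H x) →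
      ∃ φ : Pt → ℝ, (∀ x, 0 ≤ φ x) ∧ (∀ x, φ x ≤ 1) ∧
        (∀ x, φ x ≤ Real.exp (-((Real.log ℓ) ^ 3 / ℓ)) * (1 + B * H x / ρ0) * PD φ x) ∧
        c1 ≤ PD φ 0 := by
  obtain ⟨p, rfl⟩ : ∃ p, a = p - 2 := ⟨a + 2, by ring⟩
  rw [sub_add_cancel] at ht2 ⊢
  exact sub_aux (by linarith) hh ht2

end Pool.Agent.Helper98.LogPoly
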