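import Pool.Agent.Helper87.LogPoly.Stub

/-! Shared Taylor estimates for pieces P3 / P4 of MP_b30792_pr: the function
`FF p c r = G_p (c r^p)`, its derivatives and a third order Taylor bound; elementary properties of
the averaging operator `PD`. -/

set_option autoImplicit false

namespace Pool.Agent.Helper98.LogPoly

open Filter Topology Set

/-! ### the averaging operator -/

theorem PD_add (f g : Pt → ℝ) (x : Pt) : PD (fun y => f y + g y) x = PD f x + PD g x := by
  unfold PD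
  simp only [Finset.sum_add_distrib, mul_add]

theorem PD_sub (f g : Pt → ℝ) (x : Pt) : PD (fun y => f y - g y) x = PD f x - PD g x := by
  unfold PD
  simp only [Finset.sum_sub_distrib, mul_sub]

theorem PD_const_mul (c : ℝ) (f : Pt → ℝ) (x : Pt) : PD (fun y => c * f y) x = c * PD f x := by
  unfold PD
  simp only [← Finset.mul_sum]
  ring

theorem PD_const (c : ℝ) (x : Pt) : PD (fun _ => c) x = c := by
  unfold PD
  simp
  ring

theorem PD_le {f g : Pt → ℝ} {x : Pt}
    (h : ∀ i j : Fin 4, f (x + stp i - stp j) ≤ g (x + stp i - stp j)) : PD f x ≤ PD g x := by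
  unfold PD
  exact mul_le_mul_of_nonneg_left
    (Finset.sum_le_sum fun i _ => Finset.sum_le_sum fun j _ => h i j) (by norm_num)

theorem PD_mono {f g : Pt → ℝ} (h : ∀ y, f y ≤ g y) (x : Pt) : PD f x ≤ PD g x :=
  PD_le fun _ _ => h _

theorem PD_le_const {f : Pt → ℝ} {x : Pt} {c : ℝ}
    (h : ∀ i j : Fin 4, f (x + stp i - stp j) ≤ c) : PD f x ≤ c :=
  (PD_le (g := fun _ => c) h).trans_eq (PD_const c x)

theorem const_le_PD {f : Pt → ℝ} {x : Pt} {c : ℝ}
    (h : ∀ i j : Fin 4, c ≤ f (x + stp i - stp j)) : c ≤ PD f x :=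
  (PD_const c x).symm.trans_le (PD_le (f := fun _ => c) h)

theorem abs_PD_le {f : Pt → ℝ} {x : Pt} {c : ℝ}
    (h : ∀ i j : Fin 4, |f (x + stp i - stp j)| ≤ c) : |PD f x| ≤ c :=
  abs_le.2 ⟨const_le_PD fun i j => (abs_le.1 (h i j)).1, PD_le_const fun i j => (abs_le.1 (h i j)).2⟩

/-! ### second order Taylor expansion with cubic remainder -/

theorem taylor_aux (f f1 f2 : ℝ → ℝ) (r s M : ℝ) (hM : 0 ≤ M)
    (h1 : ∀ t ∈ uIcc r s, HasDerivAt f (f1 t) t)
    (h2 : ∀ t ∈ uIcc r s, HasDerivAt f1 (f2 t) t)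
    (h3 : ∀ t ∈ uIcc r s, |f2 t - f2 r| ≤ M * |t - r|) :
    |f s - f r - f1 r * (s - r) - f2 r / 2 * (s - r) ^ 2| ≤ M * |s - r| ^ 3 := by
  have hle : ∀ t ∈ uIcc r s, |t - r| ≤ |s - r| := fun t ht => by
    have := abs_sub_left_of_mem_uIcc ht
    exact this
  have hr : r ∈ uIcc r s := left_mem_uIcc
  have hs : s ∈ uIcc r s := right_mem_uIcc
  have hg1 : ∀ t ∈ uIcc r s, |f1 t - f1 r - f2 r * (t - r)| ≤ M * |s - r| * |t - r| := by
    intro t ht
    have key := (convex_uIcc r s).norm_image_sub_le_of_norm_hasDerivWithin_le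
      (f := fun t => f1 t - f1 r - f2 r * (t - r)) (f' := fun t => f2 t - f2 r)
      (C := M * |s - r|) (x := r) (y := t) ?_ ?_ hr ht
    · simpa using key
    · intro t ht
      have e := ((h2 t ht).sub_const (f1 r)).sub
        (((hasDerivAt_id t).sub_const r).const_mul (f2 r))
      simp only [mul_one, id_eq] at e
      exact e.hasDerivWithinAt
    · intro t ht
      rw [Real.norm_eq_abs]
      exact (h3 t ht).trans (mul_le_mul_of_nonneg_left (hle t ht) hM)
  have key := (convex_uIcc r s).norm_image_sub_le_of_norm_hasDerivWithin_le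
      (f := fun t => f t - f r - f1 r * (t - r) - f2 r / 2 * (t - r) ^ 2)
      (f' := fun t => f1 t - f1 r - f2 r * (t - r))
      (C := M * |s - r| * |s - r|) (x := r) (y := s) ?_ ?_ hr hs
  · have : |f s - f r - f1 r * (s - r) - f2 r / 2 * (s - r) ^ 2| ≤
        M * |s - r| * |s - r| * |s - r| := by simpa using key
    calc _ ≤ _ := this
      _ = _ := by ring
  · intro t ht
    have e := (((h1 t ht).sub_const (f r)).sub
        (((hasDerivAt_id t).sub_const r).const_mul (f1 r))).sub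
        ((((hasDerivAt_id t).sub_const r).pow 2).const_mul (f2 r / 2))
    refine (e.congr_deriv (f' := _) (g' := f1 t - f1 r - f2 r * (t - r)) ?_).hasDerivWithinAt
    simp only [id_eq]
    norm_num
    ring
  · intro t ht
    rw [Real.norm_eq_abs]
    exact (hg1 t ht).trans (mul_le_mul_of_nonneg_left (hle t ht)
      (mul_nonneg hM (abs_nonneg _)))

/-! ### the function `r ↦ G_p (c r^p)` -/

noncomputable def FF (p c r : ℝ) : ℝ := GG p (c * r ^ p)

noncomputable def FF1 (p c r : ℝ) : ℝ := c * p * r ^ (p - 1) * GG1 p (c * r ^ p)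

theorem hasDerivAt_crp {p : ℝ} (c : ℝ) {r : ℝ} (hr : 0 < r) :
    HasDerivAt (fun t : ℝ => c * t ^ p) (c * (p * r ^ (p - 1))) r :=
  (Real.hasDerivAt_rpow_const (Or.inl hr.ne')).const_mul c

theorem hasDerivAt_FF {p : ℝ} (hp : 1 < p) (c : ℝ) {r : ℝ} (hr : 0 < r) :
    HasDerivAt (FF p c) (FF1 p c r) r := by
  have h := (hasDerivAt_GG hp (c * r ^ p)).comp r (hasDerivAt_crp (p := p) c hr)
  refine h.congr_deriv ?_
  unfold FF1
  ring

theorem hasDerivAt_FF1 {p : ℝ} (hp : 1 < p) (c : ℝ) {r : ℝ} (hr : 0 < r) :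
    HasDerivAt (FF1 p c) (-2 * c * r ^ (p - 2) * FF p c r) r := by
  have h1 : HasDerivAt (fun t : ℝ => c * p * t ^ (p - 1))
      (c * p * ((p - 1) * r ^ (p - 1 - 1))) r :=
    (Real.hasDerivAt_rpow_const (Or.inl hr.ne')).const_mul (c * p)
  have h2 := (hasDerivAt_GG1 hp (c * r ^ p)).comp r (hasDerivAt_crp (p := p) c hr)
  have h := h1.mul h2
  refine h.congr_deriv (Eq.symm ?_)
  have hode := GG_ode hp (c * r ^ p)
  have e1 : r ^ (p - 1 - 1) = r ^ (p - 2) := by congr 1; ring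
  have e2 : r ^ (p - 1) * r ^ (p - 1) = r ^ (p - 2) * r ^ p := by
    rw [← Real.rpow_add hr, ← Real.rpow_add hr]; congr 1; ring
  simp only [Function.comp]
  rw [e1]
  unfold FF
  calc -2 * c * r ^ (p - 2) * GG p (c * r ^ p) = c * r ^ (p - 2) * (-2 * GG p (c * r ^ p)) := by
        ring
    _ = c * r ^ (p - 2) * (p ^ 2 * (c * r ^ p) * GG2 p (c * r ^ p) +
          p * (p - 1) * GG1 p (c * r ^ p)) := by rw [hode]
    _ = c * p * ((p - 1) * r ^ (p - 2)) * GG1 p (c * r ^ p) +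
          c * p * c * p * GG2 p (c * r ^ p) * (r ^ (p - 2) * r ^ p) := by ring
    _ = c * p * ((p - 1) * r ^ (p - 2)) * GG1 p (c * r ^ p) +
          c * p * c * p * GG2 p (c * r ^ p) * (r ^ (p - 1) * r ^ (p - 1)) := by rw [e2]
    _ = _ := by ring

/-- uniform bounds for `G` and `G'` on `[0,τ]` -/
theorem GG_bounds {p : ℝ} (hp : 1 < p) (τ : ℝ) :
    ∃ M : ℝ, 1 ≤ M ∧ ∀ t, 0 ≤ t → t ≤ τ → |GG p t| ≤ M ∧ |GG1 p t| ≤ M := by
  obtain ⟨M0, hM0⟩ := (isCompact_Icc (a := (0:ℝ)) (b := τ)).exists_bound_of_continuousOn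
    (continuous_GG hp).continuousOn
  obtain ⟨M1, hM1⟩ := (isCompact_Icc (a := (0:ℝ)) (b := τ)).exists_bound_of_continuousOn
    (continuous_GG1 hp).continuousOn
  refine ⟨max 1 (max M0 M1), le_max_left _ _, fun t h0 h1 => ⟨?_, ?_⟩⟩
  · exact (hM0 t ⟨h0, h1⟩).trans ((le_max_left _ _).trans (le_max_right _ _))
  · exact (hM1 t ⟨h0, h1⟩).trans ((le_max_right _ _).trans (le_max_right _ _))

/-- powers are comparable at comparable points -/
theorem rpow_le_of_ratio {r t : ℝ} (hr : 0 < r) (h1 : r / 2 ≤ t) (h2 : t ≤ 2 * r) (q : ℝ) :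
    t ^ q ≤ 2 ^ |q| * r ^ q := by
  have ht : 0 < t := by linarith
  rcases le_total 0 q with hq | hq
  · rw [abs_of_nonneg hq, ← Real.mul_rpow (by norm_num) hr.le]
    exact Real.rpow_le_rpow ht.le h2 hq
  · rw [abs_of_nonpos hq]
    have : t ^ q ≤ (r / 2) ^ q := Real.rpow_le_rpow_of_nonpos (by linarith) h1 hq
    refine this.trans_eq ?_
    rw [Real.div_rpow hr.le (by norm_num), Real.rpow_neg (by norm_num)]
    field_simp

theorem FF_taylor {p : ℝ} (hp : 1 < p) (τ : ℝ) :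
    ∃ K : ℝ, 0 < K ∧ ∀ c : ℝ, 0 < c → ∀ r : ℝ, 0 < r → c * r ^ p ≤ τ → ∀ s : ℝ,
      |s - r| ≤ r / 2 →
      |FF p c s - FF p c r - FF1 p c r * (s - r) + c * r ^ (p - 2) * FF p c r * (s - r) ^ 2| ≤
        K * (c * r ^ (p - 3)) * |s - r| ^ 3 := by
  obtain ⟨M, hM1, hM⟩ := GG_bounds hp (2 ^ |p| * τ)
  refine ⟨2 * (2 ^ |p - 3| * (|p - 2| * M + p * (2 ^ |p| * |τ|) * M)) + 1, by positivity, ?_⟩
  intro c hc r hr hcr s hs
  set K := 2 * (2 ^ |p - 3| * (|p - 2| * M + p * (2 ^ |p| * |τ|) * M)) + 1 with hK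
  have hK0 : 0 ≤ K := by positivity
  have hτ : 0 ≤ τ := le_trans (by positivity) hcr
  have hseg : ∀ t ∈ uIcc r s, r / 2 ≤ t ∧ t ≤ 2 * r := by
    intro t ht
    have h1 := abs_sub_left_of_mem_uIcc ht
    have h2 := abs_le.1 (h1.trans hs)
    constructor <;> linarith [h2.1, h2.2]
  have hcrp : ∀ t, r / 2 ≤ t → t ≤ 2 * r → 0 ≤ c * t ^ p ∧ c * t ^ p ≤ 2 ^ |p| * τ := by
    intro t h1 h2
    have ht : 0 < t := by linarith
    refine ⟨by positivity, ?_⟩
    calc c * t ^ p ≤ c * (2 ^ |p| * r ^ p) :=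
          mul_le_mul_of_nonneg_left (rpow_le_of_ratio hr h1 h2 p) hc.le
      _ = 2 ^ |p| * (c * r ^ p) := by ring
      _ ≤ _ := mul_le_mul_of_nonneg_left hcr (by positivity)
  have hf3 : ∀ t, r / 2 ≤ t → t ≤ 2 * r →
      |-2 * c * ((p - 2) * t ^ (p - 2 - 1)) * FF p c t +
        -2 * c * t ^ (p - 2) * FF1 p c t| ≤ K * (c * r ^ (p - 3)) := by
    intro t h1 h2
    have ht : 0 < t := by linarith
    obtain ⟨g0, g1⟩ := hM (c * t ^ p) (hcrp t h1 h2).1 (hcrp t h1 h2).2
    have e3 : t ^ (p - 2 - 1) = t ^ (p - 3) := by congr 1; ring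
    have hq := rpow_le_of_ratio hr h1 h2 (p - 3)
    have e4 : t ^ (p - 2) * t ^ (p - 1) = t ^ (p - 3) * t ^ p := by
      rw [← Real.rpow_add ht, ← Real.rpow_add ht]; congr 1; ring
    have hA : |-2 * c * ((p - 2) * t ^ (p - 2 - 1)) * FF p c t| ≤
        2 * c * t ^ (p - 3) * (|p - 2| * M) := by
      rw [e3]
      have : |-2 * c * ((p - 2) * t ^ (p - 3)) * FF p c t| =
          2 * c * t ^ (p - 3) * (|p - 2| * |GG p (c * t ^ p)|) := by
        unfold FF
        rw [abs_mul, abs_mul, abs_mul, abs_mul, abs_of_pos hc,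
          abs_of_pos (Real.rpow_pos_of_pos ht _)]
        norm_num
        ring
      rw [this]
      gcongr
    have hB : |-2 * c * t ^ (p - 2) * FF1 p c t| ≤
        2 * c * t ^ (p - 3) * (p * (2 ^ |p| * |τ|) * M) := by
      have : |-2 * c * t ^ (p - 2) * FF1 p c t| =
          2 * c * t ^ (p - 3) * (p * (c * t ^ p) * |GG1 p (c * t ^ p)|) := by
        unfold FF1
        have e5 : -2 * c * t ^ (p - 2) * (c * p * t ^ (p - 1) * GG1 p (c * t ^ p)) =
          -(2 * c * t ^ (p - 3) * (p * (c * t ^ p)) * GG1 p (c * t ^ p)) := by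
          calc _ = -(2 * c * (c * p) * GG1 p (c * t ^ p) * (t ^ (p - 2) * t ^ (p - 1))) := by ring
            _ = _ := by rw [e4]; ring
        rw [e5, abs_neg, abs_mul, abs_of_nonneg (by positivity)]
        ring
      rw [this]
      have h5 : c * t ^ p ≤ 2 ^ |p| * |τ| := by
        rw [abs_of_nonneg hτ]; exact (hcrp t h1 h2).2
      have h6 : 0 ≤ c * t ^ p := (hcrp t h1 h2).1
      gcongr
    calc _ ≤ _ := abs_add_le _ _
      _ ≤ 2 * c * t ^ (p - 3) * (|p - 2| * M) + 2 * c * t ^ (p - 3) * (p * (2 ^ |p| * |τ|) * M) :=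
          add_le_add hA hB
      _ = t ^ (p - 3) * (2 * c * (|p - 2| * M + p * (2 ^ |p| * |τ|) * M)) := by ring
      _ ≤ (2 ^ |p - 3| * r ^ (p - 3)) * (2 * c * (|p - 2| * M + p * (2 ^ |p| * |τ|) * M)) := by
          refine mul_le_mul_of_nonneg_right hq (by positivity)
      _ = (2 * (2 ^ |p - 3| * (|p - 2| * M + p * (2 ^ |p| * |τ|) * M))) * (c * r ^ (p - 3)) := by
          ring
      _ ≤ K * (c * r ^ (p - 3)) := by
          refine mul_le_mul_of_nonneg_right ?_ (by positivity)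
          rw [hK]; linarith
  have hmain := taylor_aux (FF p c) (FF1 p c) (fun t => -2 * c * t ^ (p - 2) * FF p c t) r s
    (K * (c * r ^ (p - 3))) (by positivity)
    (fun t ht => hasDerivAt_FF hp c (by linarith [(hseg t ht).1]))
    (fun t ht => hasDerivAt_FF1 hp c (by linarith [(hseg t ht).1]))
    (by
      intro t ht
      have key := (convex_uIcc r s).norm_image_sub_le_of_norm_hasDerivWithin_le
        (f := fun t => -2 * c * t ^ (p - 2) * FF p c t)
        (f' := fun t => -2 * c * ((p - 2) * t ^ (p - 2 - 1)) * FF p c t +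
          -2 * c * t ^ (p - 2) * FF1 p c t)
        (C := K * (c * r ^ (p - 3))) (x := r) (y := t) ?_ ?_ left_mem_uIcc ht
      · simpa [Real.norm_eq_abs] using key
      · intro u hu
        have hu0 : 0 < u := by linarith [(hseg u hu).1]
        have e := ((Real.hasDerivAt_rpow_const (p := p - 2) (Or.inl hu0.ne')).const_mul
          (-2 * c)).mul (hasDerivAt_FF hp c hu0)
        exact e.hasDerivWithinAt
      · intro u hu
        rw [Real.norm_eq_abs]
        exact hf3 u (hseg u hu).1 (hseg u hu).2)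
  have e6 : FF p c s - FF p c r - FF1 p c r * (s - r) + c * r ^ (p - 2) * FF p c r * (s - r) ^ 2 =
      FF p c s - FF p c r - FF1 p c r * (s - r) -
        (-2 * c * r ^ (p - 2) * FF p c r) / 2 * (s - r) ^ 2 := by ring
  rw [e6]
  exact hmain

end Pool.Agent.Helper98.LogPoly
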